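import Pool.Agent.Y320.FR.Fin2

/-!
# Factorization in `ℓ¹` algebras on semigroups of positive real numbers

The starting results `NotFactor`, `NoFactorisation` and `SumOfTwoProducts` treat the three
algebras of the question, all of which have rational exponents.  Here are three theorems on
algebras with arbitrary real exponents; the third one is the case of the question.

(1) Let `S` be a nonempty set of positive real numbers such that sums `x + y ≤ δ` of elements of
`S` are in `S`, for some `δ > 0`; for instance any additive semigroup `S ⊆ (0, ∞)`, such as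
`ℚ⁺`, `ℝ⁺` with the discrete topology, `ℤ[√2]⁺`, or any truncation `S ∩ (0, T]` of one.  Let the
weight `ω ≥ 0` be bounded and bounded away from zero on `S ∩ (0, δ]` (and arbitrary elsewhere).
Then `ℓ¹(S, ω)` does not factor.

(2) Let `H` be a subgroup of `(ℝ, +)`, `S ≠ ∅` an initial segment of `H ∩ (0, ∞)` (all of it, or
`H ∩ (0, T]`, or `H ∩ (0, T)`), `ω(t) = exp (c t - l t²)` with real `c` and `l ≥ 0`, and
`A = ℓ¹(S, ω)`, a commutative Banach algebra.  Then `A = A²` if and only if `H` is dense in `ℝ`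
(that is, `H` is not cyclic), and then every element of `A` is a sum of two products.

(3) The three algebras of the question: none of them factors, and all of them satisfy `A = A²`;
two products suffice.

Idea of (1).  The points `t_j` of `S` decrease so fast that no divisibility is needed; one passes to
an ultrapower of `ℝ` (the starting library `Helper976/Fac` does this for `ℚ`).
Idea of (2).  For `H` dense the points `s_j` in `δ_q = δ_{s_j} * δ_{q - s_j}` can be taken in `H`; a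
Neumann series corrects the error.  If `H` is cyclic, all products vanish at the least point.
-/

set_option autoImplicit false

open Set Pool.Agent.Y320.FR

namespace Pool.Agent.Results.MP_7607f9_an.RealSemigroups

/-- the positive rationals, as a set of real numbers -/
def QPos : Set ℝ := {x | 0 < x ∧ ∃ q : ℚ, (q : ℝ) = x}

/-- the subgroup of the rationals -/
noncomputable def Qsub : AddSubgroup ℝ := ((Rat.castHom ℝ).toAddMonoidHom).range

lemma mem_Qsub (x : ℝ) : x ∈ Qsub ↔ ∃ q : ℚ, (q : ℝ) = x := by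
  exact Iff.rfl

lemma dense_Qsub : Dense (Qsub : Set ℝ) := by
  have h : (Qsub : Set ℝ) = Set.range ((↑) : ℚ → ℝ) := by
    ext x
    rw [SetLike.mem_coe, mem_Qsub]
    rfl
  rw [h]
  exact Rat.denseRange_cast

theorem general (H : AddSubgroup ℝ) (S : Set ℝ) (c l : ℝ) (hne : S.Nonempty)
    (hS : ∀ t ∈ S, t ∈ H ∧ 0 < t) (hS' : ∀ t ∈ S, ∀ x ∈ H, 0 < x → x < t → x ∈ S) (hl : 0 ≤ l) :
    (∀ f ∈ ellOne S (wgt c l), ∀ g ∈ ellOne S (wgt c l),
      (∀ t : S, Summable fun p : {p : S × S // (p.1 : ℝ) + (p.2 : ℝ) = (t : ℝ)} =>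
        ‖f p.1.1 * g p.1.2‖) ∧ conv S f g ∈ ellOne S (wgt c l)) ∧
    (Dense (H : Set ℝ) → TwoProducts S (wgt c l)) ∧
    (square S (wgt c l) = ellOne S (wgt c l) ↔ Dense (H : Set ℝ)) := by
  obtain ⟨-, h2, h3⟩ := classification H S hne hS hS' c l hl
  refine ⟨fun f hf g hg => ⟨fun t => ?_, ?_⟩, h2, h3⟩
  · exact fiber_summable (wgt_pos c l) (fun t ht => (hS t ht).2)
      (fun x y hx hy => wgt_sub hl x y hx hy) hf hg t
  · exact conv_mem (wgt_pos c l) (fun t ht => (hS t ht).2)
      (fun x y hx hy => wgt_sub hl x y hx hy) hf hg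

/-- For a set `S` of positive rationals which is an initial segment of `QPos`. -/
theorem rational (S : Set ℝ) (c l : ℝ) (hne : S.Nonempty) (hS : S ⊆ QPos)
    (hS' : ∀ t ∈ S, ∀ x ∈ QPos, x < t → x ∈ S) (hl : 0 ≤ l) :
    ¬ Factors S (wgt c l) ∧ square S (wgt c l) = ellOne S (wgt c l) ∧
      TwoProducts S (wgt c l) := by
  obtain ⟨h1, h2, h3⟩ := classification Qsub S hne
    (fun t ht => ⟨(mem_Qsub t).2 (hS ht).2, (hS ht).1⟩)
    (fun t ht x hx hx0 hxt => hS' t ht x ⟨hx0, (mem_Qsub x).1 hx⟩ hxt) c l hl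
  exact ⟨h1, h3.2 dense_Qsub, h2 dense_Qsub⟩

theorem result :
    -- (1) algebras of semigroups of positive reals, possibly truncated, do not factor
    (∀ (S : Set ℝ) (ω : ℝ → ℝ) (δ κ B : ℝ), S.Nonempty → (∀ t ∈ S, 0 < t) → 0 < δ → 0 < κ →
      (∀ x ∈ S, ∀ y ∈ S, x + y ≤ δ → x + y ∈ S) → (∀ t ∈ S, 0 ≤ ω t) →
      (∀ t ∈ S, t ≤ δ → κ ≤ ω t ∧ ω t ≤ B) → ¬ Factors S ω) ∧
    -- (2) subgroups of the reals: `A = A²` if and only if the subgroup is dense
    (∀ (H : AddSubgroup ℝ) (S : Set ℝ) (c l : ℝ), S.Nonempty → (∀ t ∈ S, t ∈ H ∧ 0 < t) →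
      (∀ t ∈ S, ∀ x ∈ H, 0 < x → x < t → x ∈ S) → 0 ≤ l →
      (∀ f ∈ ellOne S (wgt c l), ∀ g ∈ ellOne S (wgt c l),
        (∀ t : S, Summable fun p : {p : S × S // (p.1 : ℝ) + (p.2 : ℝ) = (t : ℝ)} =>
          ‖f p.1.1 * g p.1.2‖) ∧ conv S f g ∈ ellOne S (wgt c l)) ∧
      (Dense (H : Set ℝ) → TwoProducts S (wgt c l)) ∧
      (square S (wgt c l) = ellOne S (wgt c l) ↔ Dense (H : Set ℝ))) ∧
    -- (3) the three algebras of the question
    (¬ Factors QPos (fun _ => 1) ∧ square QPos (fun _ => 1) = ellOne QPos (fun _ => 1) ∧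
      TwoProducts QPos (fun _ => 1)) ∧
    (¬ Factors QPos (fun t => Real.exp (-t ^ 2)) ∧
      square QPos (fun t => Real.exp (-t ^ 2)) = ellOne QPos (fun t => Real.exp (-t ^ 2)) ∧
      TwoProducts QPos (fun t => Real.exp (-t ^ 2))) ∧
    (¬ Factors (QPos ∩ Iic 1) (fun _ => 1) ∧
      square (QPos ∩ Iic 1) (fun _ => 1) = ellOne (QPos ∩ Iic 1) (fun _ => 1) ∧
      TwoProducts (QPos ∩ Iic 1) (fun _ => 1)) := by
  have hone : (1 : ℝ) ∈ QPos := ⟨one_pos, 1, by simp⟩
  have h0 : wgt 0 0 = fun _ => 1 := by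
    funext t
    simp [wgt]
  have h1 : wgt 0 1 = fun t : ℝ => Real.exp (-t ^ 2) := by
    funext t
    simp [wgt]
  refine ⟨fun S ω δ κ B hne hS hδ hκ hadd hω0 hω =>
      not_factors S ω δ κ B hne hS hδ hκ hadd hω0 hω,
    fun H S c l hne hS hS' hl => general H S c l hne hS hS' hl, ?_, ?_, ?_⟩
  · rw [← h0]
    exact rational QPos 0 0 ⟨1, hone⟩ (fun _ h => h) (fun t _ x hx _ => hx) le_rfl
  · rw [← h1]
    exact rational QPos 0 1 ⟨1, hone⟩ (fun _ h => h) (fun t _ x hx _ => hx) zero_le_one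
  · rw [← h0]
    exact rational (QPos ∩ Iic 1) 0 0 ⟨1, hone, mem_Iic.2 le_rfl⟩ (fun _ h => h.1)
      (fun t ht x hx hxt => ⟨hx, hxt.le.trans ht.2⟩) le_rfl

end Pool.Agent.Results.MP_7607f9_an.RealSemigroups
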